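import Pool.Agent.Q259.WF.D00
import Pool.Agent.Q259.WF.D01
import Pool.Agent.Q259.WF.D02
import Pool.Agent.Q259.WF.D03
import Pool.Agent.Q259.WF.D04
import Pool.Agent.Q259.WF.D05
import Pool.Agent.Q259.WF.D06
import Pool.Agent.Q259.WF.D07
import Pool.Agent.Q259.WF.D08
import Pool.Agent.Q259.WF.D09
import Pool.Agent.Q259.WF.D10
import Pool.Agent.Q259.WF.D11
import Pool.Agent.Q259.WF.D12
import Pool.Agent.Q259.WF.D13
import Pool.Agent.Q259.WF.D14
import Pool.Agent.Q259.WF.D15
import Pool.Agent.Q259.WF.D16
import Pool.Agent.Q259.WF.D17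
import Pool.Agent.Q259.WF.D18
import Pool.Agent.Q259.WF.D19
import Pool.Agent.Q259.WF.D20
import Pool.Agent.Q259.WF.D21

set_option autoImplicit false

/-! The sums over all pairs from 396 on. -/

namespace Pool.Agent.Q259.WF

theorem t1_0 : (200491420485721 : ℝ) ≤ T * cs 1 391 21702361 := a0_56

theorem t1_1 : (206501307892377 : ℝ) ≤ T * cs 1 391 47340211 := by
  have h := cs_add (r := 1) (a := 391) (b := 21702361) (c := 47340211) (by norm_num) (by norm_num)
  rw [← h, mul_add]
  linarith [t1_0, a1_11]

theorem t1_2 : (209786965277081 : ℝ) ≤ T * cs 1 391 74606941 := by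
  have h := cs_add (r := 1) (a := 391) (b := 47340211) (c := 74606941) (by norm_num) (by norm_num)
  rw [← h, mul_add]
  linarith [t1_1, a2_11]

theorem t1_3 : (212023811380633 : ℝ) ≤ T * cs 1 391 102874483 := by
  have h := cs_add (r := 1) (a := 391) (b := 74606941) (c := 102874483) (by norm_num) (by norm_num)
  rw [← h, mul_add]
  linarith [t1_2, a3_11]

theorem t1_4 : (213707802400473 : ℝ) ≤ T * cs 1 391 131934163 := by
  have h := cs_add (r := 1) (a := 391) (b := 102874483) (c := 131934163) (by norm_num) (by norm_num)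
  rw [← h, mul_add]
  linarith [t1_3, a4_11]

theorem t1_5 : (215052365415321 : ℝ) ≤ T * cs 1 391 161642077 := by
  have h := cs_add (r := 1) (a := 391) (b := 131934163) (c := 161642077) (by norm_num) (by norm_num)
  rw [← h, mul_add]
  linarith [t1_4, a5_11]

theorem t1_6 : (216167796591513 : ℝ) ≤ T * cs 1 391 191890663 := by
  have h := cs_add (r := 1) (a := 391) (b := 161642077) (c := 191890663) (by norm_num) (by norm_num)
  rw [← h, mul_add]
  linarith [t1_5, a6_11]

theorem t1_7 : (217118355708697 : ℝ) ≤ T * cs 1 391 222572101 := by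
  have h := cs_add (r := 1) (a := 391) (b := 191890663) (c := 222572101) (by norm_num) (by norm_num)
  rw [← h, mul_add]
  linarith [t1_6, a7_11]

theorem t1_8 : (217944911766361 : ℝ) ≤ T * cs 1 391 253892827 := by
  have h := cs_add (r := 1) (a := 391) (b := 222572101) (c := 253892827) (by norm_num) (by norm_num)
  rw [← h, mul_add]
  linarith [t1_7, a8_11]

theorem t1_9 : (218674766103385 : ℝ) ≤ T * cs 1 391 285555553 := by
  have h := cs_add (r := 1) (a := 391) (b := 253892827) (c := 285555553) (by norm_num) (by norm_num)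
  rw [← h, mul_add]
  linarith [t1_8, a9_11]

theorem t1_10 : (219042842628505 : ℝ) ≤ T * cs 1 391 302997691 := by
  have h := cs_add (r := 1) (a := 391) (b := 285555553) (c := 302997691) (by norm_num) (by norm_num)
  rw [← h, mul_add]
  linarith [t1_9, a10_6]

theorem t5_0 : (218692105633912 : ℝ) ≤ T * cs 5 395 21848297 := a11_56

theorem t5_1 : (224680643896760 : ℝ) ≤ T * cs 5 395 47397293 := by
  have h := cs_add (r := 5) (a := 395) (b := 21848297) (c := 47397293) (by norm_num) (by norm_num)
  rw [← h, mul_add]
  linarith [t5_0, a12_11]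

theorem t5_2 : (227965395709944 : ℝ) ≤ T * cs 5 395 74505281 := by
  have h := cs_add (r := 5) (a := 395) (b := 47397293) (c := 74505281) (by norm_num) (by norm_num)
  rw [← h, mul_add]
  linarith [t5_1, a13_11]

theorem t5_3 : (230204299353272 : ℝ) ≤ T * cs 5 395 102757631 := by
  have h := cs_add (r := 5) (a := 395) (b := 74505281) (c := 102757631) (by norm_num) (by norm_num)
  rw [← h, mul_add]
  linarith [t5_2, a14_11]

theorem t5_4 : (231889957563832 : ℝ) ≤ T * cs 5 395 131810573 := by
  have h := cs_add (r := 5) (a := 395) (b := 102757631) (c := 131810573) (by norm_num) (by norm_num)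
  rw [← h, mul_add]
  linarith [t5_3, a15_11]

theorem t5_5 : (233234781235448 : ℝ) ≤ T * cs 5 395 161683343 := by
  have h := cs_add (r := 5) (a := 395) (b := 131810573) (c := 161683343) (by norm_num) (by norm_num)
  rw [← h, mul_add]
  linarith [t5_4, a16_11]

theorem t5_6 : (234349725334776 : ℝ) ≤ T * cs 5 395 192022541 := by
  have h := cs_add (r := 5) (a := 395) (b := 161683343) (c := 192022541) (by norm_num) (by norm_num)
  rw [← h, mul_add]
  linarith [t5_5, a17_11]

theorem t5_7 : (235299273649976 : ℝ) ≤ T * cs 5 395 222936971 := by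
  have h := cs_add (r := 5) (a := 395) (b := 192022541) (c := 222936971) (by norm_num) (by norm_num)
  rw [← h, mul_add]
  linarith [t5_6, a18_11]

theorem t5_8 : (236124859094648 : ℝ) ≤ T * cs 5 395 254053907 := by
  have h := cs_add (r := 5) (a := 395) (b := 222936971) (c := 254053907) (by norm_num) (by norm_num)
  rw [← h, mul_add]
  linarith [t5_7, a19_11]

theorem t5_9 : (236854347351672 : ℝ) ≤ T * cs 5 395 285590681 := by
  have h := cs_add (r := 5) (a := 395) (b := 254053907) (c := 285590681) (by norm_num) (by norm_num)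
  rw [← h, mul_add]
  linarith [t5_8, a20_11]

theorem t5_10 : (237219332996856 : ℝ) ≤ T * cs 5 395 302995691 := by
  have h := cs_add (r := 5) (a := 395) (b := 285590681) (c := 302995691) (by norm_num) (by norm_num)
  rw [← h, mul_add]
  linarith [t5_9, a21_6]

end Pool.Agent.Q259.WF
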