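import Mathlib

set_option autoImplicit false

/-! Lower bounds for sums of reciprocals over pairs of consecutive primes with difference 6, from lists of
differences. -/

namespace Pool.Agent.Q259.WF

open Finset

/-- `p` and `p + h` are consecutive primes -/
def IsGapPair (h p : ℕ) : Prop :=
  p.Prime ∧ (p + h).Prime ∧ ∀ q, p < q → q < p + h → ¬ q.Prime

/-- the primes dividing `P` are less than `s`, and all primes from 5 to below `s` divide `P` -/
def GoodP (P s : ℕ) : Prop :=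
  (∀ q, q.Prime → q ∣ P → q < s) ∧ ∀ q, q.Prime → ¬ q ∣ 6 → q < s → q ∣ P

theorem GoodP.prime {P s n : ℕ} (h : GoodP P s) (h6 : n % 6 = 1 ∨ n % 6 = 5) (hn : 1 < n) (hs : n < s * s)
    (hc : Nat.gcd n P = 1) : n.Prime := by
  by_contra hp
  have h4 : (Nat.minFac n).Prime := Nat.minFac_prime (by omega)
  have h5 : Nat.minFac n ^ 2 ≤ n := Nat.minFac_sq_le_self (by omega) hp
  set q := Nat.minFac n with hq
  have hqd : q ∣ n := Nat.minFac_dvd _
  rw [sq] at h5
  have h6' : q < s := by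
    by_contra h7
    push Not at h7
    have := Nat.mul_le_mul h7 h7
    omega
  have hq2 : ¬ q ∣ 6 := by
    intro h8
    have h9 : q = 2 ∨ q = 3 := by
      have h10 : q ∣ 2 * 3 := h8
      rcases (h4.dvd_mul).1 h10 with h | h
      · left; exact (Nat.prime_dvd_prime_iff_eq h4 Nat.prime_two).1 h
      · right; exact (Nat.prime_dvd_prime_iff_eq h4 Nat.prime_three).1 h
    rcases h9 with h | h
    · rw [h] at hqd; omega
    · rw [h] at hqd; omega
  have h8 : q ∣ Nat.gcd n P := Nat.dvd_gcd hqd (h.2 q h4 hq2 h6')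
  rw [hc] at h8
  exact h4.one_lt.ne' (Nat.dvd_one.1 h8)

theorem GoodP.not_prime {P s n : ℕ} (h : GoodP P s) (hs : s ≤ n) (hc : 2 ≤ Nat.gcd n P) : ¬ n.Prime := by
  intro hp
  rcases (Nat.dvd_prime hp).1 (Nat.gcd_dvd_left n P) with h1 | h1
  · omega
  · have h2 : n ∣ P := by
      rw [← h1]; exact Nat.gcd_dvd_right n P
    have := h.1 n hp h2
    omega

theorem not_prime_of_three_dvd {n : ℕ} (h : n % 3 = 0) (h3 : 3 < n) : ¬ n.Prime := by
  intro hp
  rcases (Nat.dvd_prime hp).1 (Nat.dvd_of_mod_eq_zero h) with h1 | h1 <;> omega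

theorem not_prime_of_two_dvd {n : ℕ} (h : n % 2 = 0) (h3 : 2 < n) : ¬ n.Prime := by
  intro hp
  rcases (Nat.dvd_prime hp).1 (Nat.dvd_of_mod_eq_zero h) with h1 | h1 <;> omega

/-- the check for the single number `q` -/
def Pred (P c q : ℕ) : Prop := Nat.gcd q P = 1 ∧ Nat.gcd (q + 6) P = 1 ∧ 2 ≤ Nat.gcd (q + c) P

theorem gapPair_of {P s c r q : ℕ} (h : GoodP P s) (hcr : (c = 4 ∧ r = 1) ∨ (c = 2 ∧ r = 5)) (hq : q % 6 = r)
    (hs1 : 2 ≤ s) (hs : s ≤ q) (hs2 : q + 6 < s * s) (hp : Pred P c q) : IsGapPair 6 q := by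
  obtain ⟨h1, h2, h3⟩ := hp
  have hq' : q % 6 = 1 ∨ q % 6 = 5 := by omega
  refine ⟨h.prime hq' (by omega) (by omega) h1, h.prime (by omega) (by omega) hs2 h2, ?_⟩
  have h4 := h.not_prime (by omega) h3
  intro t ht1 ht2
  have : t = q + 1 ∨ t = q + 2 ∨ t = q + 3 ∨ t = q + 4 ∨ t = q + 5 := by omega
  have hq5 : 5 ≤ q := by
    by_contra h5
    have : q = 0 ∨ q = 1 ∨ q = 2 ∨ q = 3 ∨ q = 4 := by omega
    rcases this with rfl | rfl | rfl | rfl | rfl
    all_goals omega
  rcases this with rfl | rfl | rfl | rfl | rfl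
  · exact not_prime_of_two_dvd (by omega) (by omega)
  · rcases hcr with ⟨rfl, rfl⟩ | ⟨rfl, rfl⟩
    · exact not_prime_of_three_dvd (by omega) (by omega)
    · exact h4
  · exact not_prime_of_two_dvd (by omega) (by omega)
  · rcases hcr with ⟨rfl, rfl⟩ | ⟨rfl, rfl⟩
    · exact h4
    · exact not_prime_of_three_dvd (by omega) (by omega)
  · exact not_prime_of_two_dvd (by omega) (by omega)

open Classical in
/-- the sum of `1 / p + 1 / (p + 6)` over the pairs of consecutive primes `p`, `p + 6` with `lo < p ≤ hi`,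
`p ≡ r` modulo 6 -/
noncomputable def cs (r lo hi : ℕ) : ℝ :=
  ∑ p ∈ (Finset.Ioc lo hi).filter (fun p => IsGapPair 6 p ∧ p % 6 = r), (1 / (p : ℝ) + 1 / ((p : ℝ) + 6))

theorem cs_nonneg (r lo hi : ℕ) : 0 ≤ cs r lo hi := by
  unfold cs
  apply Finset.sum_nonneg
  intro p _
  positivity

theorem cs_add {r a b c : ℕ} (h1 : a ≤ b) (h2 : b ≤ c) : cs r a b + cs r b c = cs r a c := by
  classical
  unfold cs
  rw [← Finset.Ioc_union_Ioc_eq_Ioc h1 h2, Finset.filter_union, Finset.sum_union]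
  rw [Finset.disjoint_left]
  intro x hx hy
  rw [Finset.mem_filter, Finset.mem_Ioc] at hx hy
  omega

/-- scale of the fixed point numbers -/
def T : ℕ := 1000000000000000

/-- one block of `n` entries -/
noncomputable def ent (P c : ℕ) (K : ℕ → ℕ) (n : ℕ) : ℕ → ℕ → ℕ → ℕ :=
  Nat.rec (fun _ p M => Bool.rec 0 (K p) (Nat.beq (Nat.gcd M P) 1))
    (fun _ ih d p M => (fun p' => Bool.rec 0 (ih (Nat.shiftRight d 10) p' (Nat.mul M (Nat.mul p' (Nat.add p' 6))))
      (Nat.ble 2 (Nat.gcd (Nat.add p' c) P))) (Nat.add p (Nat.mul 6 (Nat.succ (Nat.mod d 1024))))) n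

theorem ent_spec (P c : ℕ) (K : ℕ → ℕ) (n : ℕ) : ∀ d p M : ℕ, ent P c K n d p M ≠ 0 →
    ∃ v, p ≤ v ∧ v % 6 = p % 6 ∧ ent P c K n d p M = K v ∧ Nat.gcd M P = 1 ∧
      ∃ S : Finset ℕ, S.card = n ∧ ∀ q ∈ S, p < q ∧ q ≤ v ∧ q % 6 = p % 6 ∧ Pred P c q := by
  induction n with
  | zero =>
    intro d p M h
    have e : ent P c K 0 d p M = Bool.rec 0 (K p) (Nat.beq (Nat.gcd M P) 1) := rfl
    cases hb : Nat.beq (Nat.gcd M P) 1
    · rw [e, hb] at h
      exact absurd rfl h
    · rw [e, hb]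
      exact ⟨p, le_rfl, rfl, rfl, Nat.eq_of_beq_eq_true hb, ∅, rfl, by simp⟩
  | succ n ih =>
    intro d p M h
    set p' := p + 6 * ((d % 1024) + 1) with hp'
    have e : ent P c K (n + 1) d p M = Bool.rec 0 (ent P c K n (d >>> 10) p' (M * (p' * (p' + 6))))
      (Nat.ble 2 (Nat.gcd (p' + c) P)) := rfl
    cases hb : Nat.ble 2 (Nat.gcd (p' + c) P)
    · rw [e, hb] at h
      exact absurd rfl h
    · rw [e, hb] at h
      rw [e, hb]
      have h' : ent P c K n (d >>> 10) p' (M * (p' * (p' + 6))) ≠ 0 := h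
      obtain ⟨v, h1, h2, h3, h4, S, h5, h6⟩ := ih _ _ _ h'
      have hcop : Nat.Coprime (M * (p' * (p' + 6))) P := h4
      have hc1 := Nat.Coprime.coprime_mul_right hcop
      have hc2 := Nat.Coprime.coprime_mul_left hcop
      have hc3 := Nat.Coprime.coprime_mul_right hc2
      have hc4 := Nat.Coprime.coprime_mul_left hc2
      refine ⟨v, by omega, by omega, h3, hc1, insert p' S, ?_, ?_⟩
      · rw [Finset.card_insert_of_notMem, h5]
        intro h7
        have := (h6 p' h7).1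
        omega
      · intro q hq
        rcases Finset.mem_insert.1 hq with rfl | hq
        · exact ⟨by omega, h1, by omega, hc3, hc4, Nat.le_of_ble_eq_true hb⟩
        · have := h6 q hq
          exact ⟨by omega, this.2.1, by omega, this.2.2.2⟩

/-- `m` blocks of `n` entries, ending at most at `e` -/
noncomputable def chk (P c n e : ℕ) (m : ℕ) : ℕ → ℕ → ℕ → ℕ :=
  Nat.rec (fun _ p acc => Bool.rec 0 acc (Nat.ble p e))
    (fun _ ih D p acc => ent P c (fun p' => ih (Nat.shiftRight D (Nat.mul 10 n)) p'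
      (Nat.add acc (Nat.mul n (Nat.add (Nat.div T p') (Nat.div T (Nat.add p' 6)))))) n
      (Nat.mod D (Nat.pow 2 (Nat.mul 10 n))) p 1) m

theorem chk_le_end (P c n e : ℕ) (m : ℕ) : ∀ D p acc, chk P c n e m D p acc ≠ 0 → p ≤ e := by
  induction m with
  | zero =>
    intro D p acc h
    have e1 : chk P c n e 0 D p acc = Bool.rec 0 acc (Nat.ble p e) := rfl
    cases hb : Nat.ble p e
    · rw [e1, hb] at h
      exact absurd rfl h
    · exact Nat.le_of_ble_eq_true hb
  | succ m ih =>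
    intro D p acc h
    have e1 : chk P c n e (m + 1) D p acc = ent P c (fun p' => chk P c n e m (D >>> (10 * n)) p'
      (acc + n * (T / p' + T / (p' + 6)))) n (D % 2 ^ (10 * n)) p 1 := rfl
    rw [e1] at h
    obtain ⟨v, h1, h2, h3, h4, S, h5, h6⟩ := ent_spec _ _ _ _ _ _ _ h
    rw [h3] at h
    exact h1.trans (ih _ _ _ h)

theorem div_le (v : ℕ) : ((T / v : ℕ) : ℝ) ≤ T * (1 / (v : ℝ)) := by
  calc ((T / v : ℕ) : ℝ) ≤ (T : ℝ) / v := Nat.cast_div_le
    _ = T * (1 / (v : ℝ)) := by ring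

theorem chk_spec {P s c r : ℕ} (hP : GoodP P s) (hcr : (c = 4 ∧ r = 1) ∨ (c = 2 ∧ r = 5)) (hs1 : 2 ≤ s)
    {e : ℕ} (he : e + 6 < s * s) (n m : ℕ) : ∀ D p acc, s ≤ p → p % 6 = r →
    ((chk P c n e m D p acc : ℕ) : ℝ) ≤ acc + T * cs r p e := by
  induction m with
  | zero =>
    intro D p acc h1 h2
    have e1 : chk P c n e 0 D p acc = Bool.rec 0 acc (Nat.ble p e) := rfl
    have hc := cs_nonneg r p e
    have hT : (0 : ℝ) ≤ T := Nat.cast_nonneg _
    have hTc := mul_nonneg hT hc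
    cases hb : Nat.ble p e
    · rw [e1, hb]
      have : (0 : ℝ) ≤ acc := Nat.cast_nonneg _
      show ((0 : ℕ) : ℝ) ≤ _
      rw [Nat.cast_zero]
      linarith
    · rw [e1, hb]
      show (acc : ℝ) ≤ _
      linarith
  | succ m ih =>
    intro D p acc hp1 hp2
    have e1 : chk P c n e (m + 1) D p acc = ent P c (fun p' => chk P c n e m (D >>> (10 * n)) p'
      (acc + n * (T / p' + T / (p' + 6)))) n (D % 2 ^ (10 * n)) p 1 := rfl
    have hT : (0 : ℝ) ≤ T := Nat.cast_nonneg _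
    by_cases h : chk P c n e (m + 1) D p acc = 0
    · rw [h, Nat.cast_zero]
      have h1 := mul_nonneg hT (cs_nonneg r p e)
      have h2 : (0 : ℝ) ≤ acc := Nat.cast_nonneg _
      linarith
    · rw [e1] at h ⊢
      obtain ⟨v, h1, h2, h3, h4, S, h5, h6⟩ := ent_spec _ _ _ _ _ _ _ h
      rw [h3] at h ⊢
      have hv := chk_le_end _ _ _ _ _ _ _ _ h
      have h7 := ih (D >>> (10 * n)) v (acc + n * (T / v + T / (v + 6))) (by omega) (by omega)
      refine h7.trans ?_
      rw [← cs_add h1 hv, mul_add]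
      push_cast
      have hv0 : (0 : ℝ) < v := by
        have : 0 < v := by omega
        exact_mod_cast this
      have h8 : (n : ℝ) * (1 / (v : ℝ) + 1 / ((v : ℝ) + 6)) ≤ cs r p v := by
        classical
        unfold cs
        have h9 : S ⊆ (Finset.Ioc p v).filter (fun p => IsGapPair 6 p ∧ p % 6 = r) := by
          intro q hq
          have h10 := h6 q hq
          rw [Finset.mem_filter, Finset.mem_Ioc]
          exact ⟨⟨h10.1, h10.2.1⟩, gapPair_of hP hcr (h10.2.2.1.trans hp2) hs1 (by omega) (by omega) h10.2.2.2,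
            h10.2.2.1.trans hp2⟩
        refine le_trans ?_ (Finset.sum_le_sum_of_subset_of_nonneg h9 fun i _ _ => by positivity)
        rw [← h5, ← nsmul_eq_mul]
        apply Finset.card_nsmul_le_sum
        intro q hq
        have h10 := h6 q hq
        have hq0 : 0 < q := by omega
        have hq1 : (0 : ℝ) < q := by exact_mod_cast hq0
        have hq2 : (q : ℝ) ≤ v := by exact_mod_cast h10.2.1
        have e1 : 1 / (v : ℝ) ≤ 1 / (q : ℝ) := one_div_le_one_div_of_le hq1 hq2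
        have e2 : 1 / ((v : ℝ) + 6) ≤ 1 / ((q : ℝ) + 6) := one_div_le_one_div_of_le (by linarith) (by linarith)
        linarith
      have d1 := div_le v
      have d2 := div_le (v + 6)
      push_cast at d2
      have hn : (0 : ℝ) ≤ n := Nat.cast_nonneg _
      have h9 : (n : ℝ) * (((T / v : ℕ) : ℝ) + ((T / (v + 6) : ℕ) : ℝ)) ≤ T * cs r p v := by
        calc (n : ℝ) * (((T / v : ℕ) : ℝ) + ((T / (v + 6) : ℕ) : ℝ)) ≤
              (n : ℝ) * (T * (1 / (v : ℝ)) + T * (1 / ((v : ℝ) + 6))) :=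
              mul_le_mul_of_nonneg_left (by linarith) hn
          _ = T * ((n : ℝ) * (1 / (v : ℝ) + 1 / ((v : ℝ) + 6))) := by ring
          _ ≤ _ := mul_le_mul_of_nonneg_left h8 hT
      linarith

theorem step {P s c r : ℕ} (hP : GoodP P s) (hcr : (c = 4 ∧ r = 1) ∨ (c = 2 ∧ r = 5)) (hs1 : 2 ≤ s)
    {a e : ℕ} (he : e + 6 < s * s) {n m D p w : ℕ} {A : ℝ} (hA : A ≤ T * cs r a p) (hs : s ≤ p) (hp : p % 6 = r)
    (ha : a ≤ p) (hw : 0 < w) (h : Nat.ble w (chk P c n e m D p 0) = true) : A + w ≤ T * cs r a e := by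
  have h1 := Nat.le_of_ble_eq_true h
  have h2 := chk_spec hP hcr hs1 he n m D p 0 hs hp
  have h3 := chk_le_end P c n e m D p 0 (by omega)
  rw [← cs_add ha h3, mul_add]
  have h4 : (w : ℝ) ≤ ((chk P c n e m D p 0 : ℕ) : ℝ) := by exact_mod_cast h1
  push_cast at h2
  linarith

end Pool.Agent.Q259.WF
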